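import Pool.Agent.LRG.StmtsA
import Pool.Agent.Helper83_LUB.HLG
import Pool.Agent.Helper85_Leo.Units

/-!
# Squad LRG, row FLG: the logarithms of the conjugates
-/

set_option autoImplicit false

open Polynomial NumberField
open Pool.Agent.Helper85_Leo (LeopoldtAt HasLog)
open Pool.Agent.LUB (LogMod emb)

namespace Pool.Agent.LRG.H40

theorem ev_map (p : ℕ) [Fact p.Prime] {K : Type} [Field K] [NumberField K] (σ : K →+* ℂ_[p])
    (θ : 𝓞 K) (q : ℤ[X]) :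
    eval₂ (emb p) (σ (θ : K)) (q.map (Int.castRingHom ℤ_[p])) = σ ((aeval θ q : 𝓞 K) : K) := by
  have h1 : ((aeval θ q : 𝓞 K) : K) = eval₂ (Int.castRingHom K) (θ : K) q := by
    show algebraMap (𝓞 K) K (eval₂ (algebraMap ℤ (𝓞 K)) θ q) = _
    rw [hom_eval₂]
    rfl
  rw [h1, hom_eval₂, eval₂_map]
  congr 1
  exact RingHom.ext_int _ _

theorem flg : A.FlgStmt := by
  intro p hp K _ _ u M w b l hw hl σ
  have hξ1 : ‖σ ((u : 𝓞 K) : K)‖ ≤ 1 :=
    Pool.Agent.Helper85_Leo.norm_embedding_le_one σ (u : 𝓞 K)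
  have hF0 : eval₂ (emb p) (σ ((u : 𝓞 K) : K))
      ((minpoly ℤ (u : 𝓞 K)).map (Int.castRingHom ℤ_[p])) = 0 := by
    rw [ev_map, minpoly.aeval]
    simp
  have h1 := Pool.Agent.LUB.H83.hlg p _ w l (σ ((u : 𝓞 K) : K)) hl hF0 hξ1
  have h2 := congrArg (eval₂ (emb p) (σ ((u : 𝓞 K) : K))) hw
  rw [eval₂_pow, eval₂_add, eval₂_add, eval₂_mul, eval₂_mul, hF0, zero_mul, add_zero, eval₂_one,
    eval₂_C, map_pow, map_natCast, eval₂_X] at h2
  rw [h2]
  exact h1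

end Pool.Agent.LRG.H40
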