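import Pool.Agent.LRG.StmtsA
import Pool.Agent.Helper52_LUB.UNI

/-!
# Squad LRG, row UNM: a power of the variable is congruent to one
-/

set_option autoImplicit false

open Polynomial NumberField

namespace Pool.Agent.LRG.H40

theorem chi_monic {S : Type} [CommRing S] (n : ℕ) (e : ℤ) (y : Fin (n - 1) → S) (hn : 0 < n) :
    (chi n e y).Monic := by
  nontriviality S
  unfold chi
  rw [add_assoc]
  refine monic_X_pow_add ?_
  refine lt_of_le_of_lt (degree_add_le _ _) ?_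
  refine max_lt ?_ ?_
  · refine lt_of_le_of_lt (degree_sum_le _ _) ?_
    rw [Finset.sup_lt_iff (by exact_mod_cast WithBot.bot_lt_coe _)]
    intro j _
    refine lt_of_le_of_lt (degree_C_mul_X_pow_le _ _) ?_
    have := j.2
    exact_mod_cast (by omega : j.1 + 1 < n)
  · refine lt_of_le_of_lt degree_C_le ?_
    exact_mod_cast hn

theorem chi_eq {S : Type} [CommRing S] (n : ℕ) (e : ℤ) (y : Fin (n - 1) → S) (hn : 0 < n) :
    ∃ q : S[X], chi n e y = X * q + C (e : S) := by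
  refine ⟨X ^ (n - 1) + ∑ j : Fin (n - 1), C (y j) * X ^ j.1, ?_⟩
  unfold chi
  rw [mul_add, Finset.mul_sum, ← pow_succ', Nat.sub_add_cancel hn]
  congr 2
  refine Finset.sum_congr rfl fun j _ => ?_
  ring

theorem unm : A.UnmStmt := by
  intro p _ n r z₀ e he hn
  have h1 : ∀ i, ∃ M : ℕ, 0 < M ∧ ∃ a b : ℤ[X],
      (X : ℤ[X]) ^ M = 1 + C ((p : ℤ) ^ 2) * a + chiI e z₀ i * b := by
    intro i
    refine Pool.Agent.LUB.H52.uni p (chiI e z₀ i) X (chi_monic _ _ _ hn) ?_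
    obtain ⟨q, hq⟩ := chi_eq n (e i) (fun j => z₀ (Sum.inl (i, j))) hn
    have h2 : chiI e z₀ i = X * q + C (e i) := by
      unfold chiI
      rw [hq]
      simp
    refine ⟨-(q * C (e i)), C (e i), 0, ?_⟩
    have h3 : (C (e i) : ℤ[X]) * C (e i) = 1 := by
      rw [← C_mul]
      rcases he i with h | h <;> rw [h] <;> simp
    rw [h2]
    linear_combination h3
  choose M hM a b hab using h1
  refine ⟨∏ i, M i, Finset.prod_pos fun i _ => hM i, fun i => ?_⟩
  obtain ⟨k, hk⟩ := Finset.dvd_prod_of_mem M (Finset.mem_univ i)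
  obtain ⟨c, hc⟩ := sub_dvd_pow_sub_pow ((X : ℤ[X]) ^ M i) 1 k
  rw [one_pow, ← pow_mul, ← hk] at hc
  refine ⟨a i * c, b i * c, ?_⟩
  have h1 := hab i
  have h2 : (X : ℤ[X]) ^ ∏ i, M i = 1 + (X ^ M i - 1) * c := by rw [← hc]; ring
  rw [h2, h1]
  ring

end Pool.Agent.LRG.H40
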