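import Pool.Agent.LRG.StmtsC

/-!
# Squad LRG, row KC1: constants in the field of fractions of `ℤ_p[[t]]`
-/

set_option autoImplicit false

namespace Pool.Agent.LRG.H40

open PowerSeries in
theorem kc1_aux {R : Type} [CommRing R] [IsDomain R] [CharZero R] (a b : PowerSeries R)
    (ha : a ≠ 0) (hb : b ≠ 0) (h : PowerSeries.derivative R a * b = a * PowerSeries.derivative R b) :
    ∃ (j : ℕ) (a1 b1 : PowerSeries R), a = X ^ j * a1 ∧ b = X ^ j * b1 ∧
      constantCoeff a1 ≠ 0 ∧ constantCoeff b1 ≠ 0 ∧
      PowerSeries.derivative R a1 * b1 = a1 * PowerSeries.derivative R b1 := by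
  have key : ∀ (c : PowerSeries R), c ≠ 0 → ∃ (j : ℕ) (c1 : PowerSeries R), c = X ^ j * c1 ∧
      constantCoeff c1 ≠ 0 := by
    intro c hc
    refine ⟨c.order.toNat, c.divXPowOrder, c.X_pow_order_mul_divXPowOrder.symm, ?_⟩
    intro h0
    exact hc (constantCoeff_divXPowOrder_eq_zero_iff.1 h0)
  have der : ∀ (j : ℕ) (c1 : PowerSeries R), X * PowerSeries.derivative R (X ^ j * c1) =
      X ^ j * ((j : PowerSeries R) * c1 + X * PowerSeries.derivative R c1) := by
    intro j c1
    rw [Derivation.leibniz, smul_eq_mul, smul_eq_mul, derivative_pow, derivative_X]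
    rcases j with _ | j
    · simp
    · rw [Nat.add_sub_cancel]
      ring
  obtain ⟨j, a1, ha1, ha0⟩ := key a ha
  obtain ⟨k, b1, hb1, hb0⟩ := key b hb
  have h2 : X ^ (j + k) * (((j : PowerSeries R) * a1 + X * PowerSeries.derivative R a1) * b1) =
      X ^ (j + k) * (a1 * ((k : PowerSeries R) * b1 + X * PowerSeries.derivative R b1)) := by
    have h3 : X * PowerSeries.derivative R a * b = a * (X * PowerSeries.derivative R b) := by
      rw [mul_assoc, h]
      ring
    rw [ha1, hb1, der, der] at h3
    calc X ^ (j + k) * (((j : PowerSeries R) * a1 + X * PowerSeries.derivative R a1) * b1)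
        = X ^ j * ((j : PowerSeries R) * a1 + X * PowerSeries.derivative R a1) * (X ^ k * b1) := by
          rw [pow_add]
          ring
      _ = _ := by
          rw [h3, pow_add]
          ring
  have h4 := mul_left_cancel₀ (pow_ne_zero _ X_ne_zero) h2
  have h5 := congrArg (constantCoeff (R := R)) h4
  simp only [map_mul, map_add, map_natCast, constantCoeff_X, zero_mul, add_zero] at h5
  have h6 : (j : R) = k := by
    have h7 : ((j : R) - k) * (constantCoeff a1 * constantCoeff b1) = 0 := by
      linear_combination h5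
    rcases mul_eq_zero.1 h7 with h8 | h8
    · exact sub_eq_zero.1 h8
    · exact absurd h8 (mul_ne_zero ha0 hb0)
  have h9 : j = k := by exact_mod_cast h6
  subst h9
  refine ⟨j, a1, b1, ha1, hb1, ha0, hb0, ?_⟩
  have h10 : X * (PowerSeries.derivative R a1 * b1) = X * (a1 * PowerSeries.derivative R b1) := by
    linear_combination h4
  exact mul_left_cancel₀ X_ne_zero h10

theorem kc1 : CX.Kc1Stmt := by
  intro p _ a b hb h
  by_cases ha : a = 0
  · refine ⟨0, 1, one_ne_zero, ?_⟩
    rw [ha]
    simp
  obtain ⟨j, a1, b1, ha1, hb1, ha0, hb0, h1⟩ := kc1_aux a b ha hb h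
  refine ⟨PowerSeries.constantCoeff a1, PowerSeries.constantCoeff b1, hb0, ?_⟩
  have hb1' : b1 ≠ 0 := by
    intro h0
    apply hb0
    rw [h0, map_zero]
  have hh : PowerSeries.C (PowerSeries.constantCoeff b1) * a1 -
      PowerSeries.C (PowerSeries.constantCoeff a1) * b1 = 0 := by
    by_contra hne
    have h2 : PowerSeries.derivative ℤ_[p] (PowerSeries.C (PowerSeries.constantCoeff b1) * a1 -
        PowerSeries.C (PowerSeries.constantCoeff a1) * b1) * b1 =
        (PowerSeries.C (PowerSeries.constantCoeff b1) * a1 -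
          PowerSeries.C (PowerSeries.constantCoeff a1) * b1) *
          PowerSeries.derivative ℤ_[p] b1 := by
      rw [map_sub, Derivation.leibniz, Derivation.leibniz, smul_eq_mul, smul_eq_mul, smul_eq_mul,
        smul_eq_mul, PowerSeries.derivative_C, PowerSeries.derivative_C]
      linear_combination PowerSeries.C (PowerSeries.constantCoeff b1) * h1
    obtain ⟨i, h3, b2, e1, e2, n1, n2, _⟩ := kc1_aux _ b1 hne hb1' h2
    have hi : i = 0 := by
      by_contra hi
      apply hb0
      rw [e2, map_mul, map_pow, PowerSeries.constantCoeff_X, zero_pow hi, zero_mul]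
    rw [hi, pow_zero, one_mul] at e1
    apply n1
    rw [← e1, map_sub, map_mul, map_mul, PowerSeries.constantCoeff_C, PowerSeries.constantCoeff_C]
    ring
  rw [ha1, hb1]
  have h4 := sub_eq_zero.1 hh
  linear_combination (PowerSeries.X : PowerSeries ℤ_[p]) ^ j * h4

end Pool.Agent.LRG.H40
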