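import Pool.Agent.LRG.StmtsC

/-!
# Squad LRG, row LZD: the normal closure in `ℂ` and its degree
-/

set_option autoImplicit false

open Polynomial NumberField

namespace Pool.Agent.LRG.H40

theorem finrank_biSup_le (n : ℕ) {ι : Type} (f : ι → IntermediateField ℚ ℂ)
    (hf : ∀ i, Module.finrank ℚ (f i) ≤ n) (s : Finset ι) :
    Module.finrank ℚ (⨆ i ∈ s, f i : IntermediateField ℚ ℂ) ≤ n ^ s.card := by
  classical
  induction s using Finset.induction_on with
  | empty =>
    have h1 : (⨆ i ∈ (∅ : Finset ι), f i : IntermediateField ℚ ℂ) = ⊥ := by simp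
    rw [h1, IntermediateField.finrank_bot]
    simp
  | insert a s ha ih =>
    rw [Finset.iSup_insert, Finset.card_insert_of_notMem ha, pow_succ, mul_comm]
    exact (IntermediateField.finrank_sup_le _ _).trans (Nat.mul_le_mul (hf a) ih)

theorem lzd : CX.LzdStmt := by
  intro n K _ hK
  have hsplit : ∀ x : K, ((minpoly ℚ x).map (algebraMap ℚ ℂ)).Splits :=
    fun x => IsAlgClosed.splits _
  have hNC : IsNormalClosure ℚ K (IntermediateField.normalClosure ℚ K ℂ) :=
    Algebra.IsAlgebraic.isNormalClosure_normalClosure hsplit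
  refine ⟨IntermediateField.normalClosure ℚ K ℂ, hNC.normal, inferInstance, ?_, ?_⟩
  · intro σ a
    have h1 := AlgHom.fieldRange_le_normalClosure (F := ℚ) (K := K) (L := ℂ) σ.toRatAlgHom
    exact h1 ⟨a, rfl⟩
  · have h2 : (IntermediateField.normalClosure ℚ K ℂ : IntermediateField ℚ ℂ) =
        ⨆ σ ∈ (Finset.univ : Finset (K →ₐ[ℚ] ℂ)), σ.fieldRange := by
      simp [IntermediateField.normalClosure]
    rw [h2]
    refine (finrank_biSup_le n (fun σ : K →ₐ[ℚ] ℂ => σ.fieldRange) ?_ _).trans ?_
    · intro σ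
      rw [← hK]
      exact le_of_eq (LinearEquiv.finrank_eq
        (AlgEquiv.ofInjectiveField σ).symm.toLinearEquiv)
    · rw [Finset.card_univ, AlgHom.card, hK]

end Pool.Agent.LRG.H40
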