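import Pool.Agent.LRG.StmtsC

/-!
# Squad LRG, row NRM: the minimal polynomial over a linearly disjoint normal field
-/

set_option autoImplicit false

open Polynomial

namespace Pool.Agent.LRG.H40

theorem nrm : CX.NrmStmt := by
  intro B hfin hnor x hx hinf
  have hN : @Normal ℚ B _ _ (IntermediateField.algebra' B) := by
    have e : (DivisionRing.toRatAlgebra : Algebra ℚ B) = IntermediateField.algebra' B :=
      Subsingleton.elim _ _
    rw [← e]
    exact hnor
  have hG : @IsGalois ℚ _ B _ (IntermediateField.algebra' B) := @IsGalois.mk ℚ _ B _ _ _ hN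
  have hAfin : FiniteDimensional ℚ (IntermediateField.adjoin ℚ {x}) :=
    IntermediateField.adjoin.finiteDimensional hx
  have hLD : B.LinearDisjoint (IntermediateField.adjoin ℚ {x}) :=
    IntermediateField.LinearDisjoint.of_inf_eq_bot (by rw [inf_comm]; exact hinf)
  have hrank := hLD.symm.adjoin_rank_eq_rank_left_of_isAlgebraic (Or.inr inferInstance)
  have hadj : IntermediateField.adjoin B
      ((IntermediateField.adjoin ℚ {x} : IntermediateField ℚ ℂ) : Set ℂ) =
      IntermediateField.adjoin B {x} := by
    apply le_antisymm
    · rw [IntermediateField.adjoin_le_iff]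
      have h1 : IntermediateField.adjoin ℚ {x} ≤
          (IntermediateField.adjoin B {x}).restrictScalars ℚ := by
        rw [IntermediateField.adjoin_le_iff]
        intro z hz
        exact IntermediateField.subset_adjoin B _ hz
      exact h1
    · rw [IntermediateField.adjoin_le_iff]
      intro z hz
      apply IntermediateField.subset_adjoin
      exact IntermediateField.subset_adjoin ℚ _ hz
  rw [hadj] at hrank
  have hxB : IsIntegral B x := hx.tower_top
  have hdeg : (minpoly B x).natDegree = (minpoly ℚ x).natDegree := by
    rw [← IntermediateField.adjoin.finrank hxB, ← IntermediateField.adjoin.finrank hx]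
    exact congrArg Cardinal.toNat hrank
  have hdvd : minpoly B x ∣ (minpoly ℚ x).map (algebraMap ℚ B) :=
    minpoly.dvd_map_of_isScalarTower ℚ B x
  refine (Polynomial.eq_of_monic_of_dvd_of_natDegree_le (minpoly.monic hxB)
    ((minpoly.monic hx).map _) hdvd ?_).symm
  rw [hdeg]
  exact natDegree_map_le

end Pool.Agent.LRG.H40
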