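import Pool.Agent.LRG.StmtsR

/-!
# Squad LRG, row CST: the constants
-/

set_option autoImplicit false

open Finset

open Pool.Agent.LRG.R

namespace Pool.Agent.LRG.H40

/-- the exponents -/
def eta (N : ℕ) : ℕ → ℕ
  | 0 => 0
  | k + 1 => N * eta N k + 1

/-- the degrees -/
def deg (N : ℕ) (e : ℕ → ℕ → ℕ) : ℕ → ℕ
  | 0 => 1
  | k + 1 => max (deg N e k) (e (N - k) (deg N e k))

/-- the constants -/
noncomputable def cns (N : ℕ) (e : ℕ → ℕ → ℕ) (C : ℕ → ℕ → ℝ) : ℕ → ℝ
  | 0 => 1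
  | k + 1 => cns N e C k ^ N * 2 ^ ((deg N e k + 1) * N) * max 1 (C (N - k) (deg N e k))

theorem one_le_deg (N : ℕ) (e : ℕ → ℕ → ℕ) (k : ℕ) : 1 ≤ deg N e k := by
  induction k with
  | zero => exact le_rfl
  | succ k ih => exact ih.trans (le_max_left _ _)

theorem one_le_cns (N : ℕ) (e : ℕ → ℕ → ℕ) (C : ℕ → ℕ → ℝ) (k : ℕ) : 1 ≤ cns N e C k := by
  induction k with
  | zero => exact le_rfl
  | succ k ih =>
    have h1 : (1 : ℝ) ≤ cns N e C k ^ N := one_le_pow₀ ih
    have h2 : (1 : ℝ) ≤ 2 ^ ((deg N e k + 1) * N) := one_le_pow₀ one_le_two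
    have h3 : (1 : ℝ) ≤ max 1 (C (N - k) (deg N e k)) := le_max_left _ _
    exact one_le_mul_of_one_le_of_one_le (one_le_mul_of_one_le_of_one_le h1 h2) h3

theorem cst : CstStatement := by
  intro N ε hε
  have hden : (0 : ℝ) < N * eta N N + 1 := by positivity
  refine ⟨ε / (N * eta N N + 1), div_pos hε hden, fun e C => ?_⟩
  obtain ⟨θ, hθ⟩ : ∃ θ : ℝ, θ = ε / (N * eta N N + 1) := ⟨_, rfl⟩
  rw [← hθ]
  have hθ0 : 0 < θ := by
    rw [hθ]
    exact div_pos hε hden
  have hθε : θ * eta N N * N ≤ ε := by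
    have h1 : θ * (N * eta N N + 1) = ε := by
      rw [hθ]
      field_simp
    nlinarith
  refine ⟨fun m => deg N e (N + 1 - m),
    fun m X => cns N e C (N + 1 - m) * X ^ (θ * eta N (N + 1 - m)),
    (deg N e N : ℝ) ^ N * cns N e C N ^ N, ?_, ?_, ?_, ?_, ?_⟩
  · have h1 : (0 : ℝ) < deg N e N := by exact_mod_cast one_le_deg N e N
    have h2 : (0 : ℝ) < cns N e C N := lt_of_lt_of_le one_pos (one_le_cns N e C N)
    positivity
  · intro m
    exact one_le_deg _ _ _
  · intro m X hX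
    exact one_le_mul_of_one_le_of_one_le (one_le_cns _ _ _ _)
      (Real.one_le_rpow hX (by positivity))
  · intro m hm1 hmN
    obtain ⟨k, hk⟩ : ∃ k, N = m + k := ⟨N - m, by omega⟩
    have e1 : N + 1 - (m + 1) = k := by omega
    have e2 : N + 1 - m = k + 1 := by omega
    have e3 : N - k = m := by omega
    simp only [e1, e2]
    refine ⟨le_max_left _ _, ?_, ?_⟩
    · have h1 : deg N e (k + 1) = max (deg N e k) (e (N - k) (deg N e k)) := rfl
      rw [h1, e3]
      exact le_max_right _ _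
    · intro X hX
      have hX0 : 0 < X := lt_of_lt_of_le one_pos hX
      have h1 : cns N e C (k + 1) = cns N e C k ^ N * 2 ^ ((deg N e k + 1) * N) *
          max 1 (C (N - k) (deg N e k)) := rfl
      have h2 : eta N (k + 1) = N * eta N k + 1 := rfl
      have h3 : X ^ (θ * ((eta N (k + 1) : ℕ) : ℝ)) =
          (X ^ (θ * (eta N k : ℝ))) ^ N * X ^ θ := by
        rw [h2, ← Real.rpow_natCast (X ^ (θ * (eta N k : ℝ))) N, ← Real.rpow_mul hX0.le,
          ← Real.rpow_add hX0]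
        congr 1
        push_cast
        ring
      rw [h1, h3, e3, mul_pow]
      apply le_of_eq
      ring
  · intro X hX
    have hX0 : 0 < X := lt_of_lt_of_le one_pos hX
    have e1 : N + 1 - 1 = N := by omega
    simp only [e1]
    rw [mul_pow, ← Real.rpow_natCast (X ^ (θ * (eta N N : ℝ))) N, ← Real.rpow_mul hX0.le,
      ← mul_assoc]
    refine mul_le_mul_of_nonneg_left (Real.rpow_le_rpow_of_exponent_le hX hθε) ?_
    have h2 : (0 : ℝ) ≤ cns N e C N := zero_le_one.trans (one_le_cns N e C N)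
    positivity

end Pool.Agent.LRG.H40
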