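import Pool.Agent.LRG.StmtsR

/-!
# Squad LRG, row PWR: powers of an etale coordinate
-/

set_option autoImplicit false

open Finset

open Pool.Agent.LRG.R

namespace Pool.Agent.LRG.H40

theorem ev1_hom {κ O : Type} [CommRing O] (q : MvPolynomial κ ℤ) (w : κ → O) :
    ev1 q w = MvPolynomial.eval₂Hom (Int.castRingHom O) w q := rfl

theorem pwr_aux (m E D : ℕ) (g : Polynomial (MvPolynomial (Fin m) ℤ)) (hb : DegB E g)
    (hd : g.natDegree = D + 1) (k : ℕ) :
    ∃ a : ℕ → MvPolynomial (Fin m) ℤ, (∀ j, (a j).totalDegree ≤ k * E) ∧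
      (∀ j, D + 1 ≤ j → a j = 0) ∧
      ∀ (O : Type) [CommRing O] (w : Fin m → O) (y : O), ev2 g w y = 0 →
        ev1 g.leadingCoeff w ^ k * y ^ k = ∑ j ∈ range (D + 1), ev1 (a j) w * y ^ j := by
  have hlead : g.leadingCoeff = g.coeff (D + 1) := by
    rw [Polynomial.leadingCoeff, hd]
  induction k with
  | zero =>
    refine ⟨fun j => if j = 0 then 1 else 0, ?_, ?_, ?_⟩
    · intro j
      by_cases hj : j = 0
      · simp [hj]
      · simp [hj]
    · intro j hj
      exact if_neg (by omega)
    · intro O _ w y _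
      rw [sum_range_succ']
      simp [ev1_hom]
  | succ k ih =>
    obtain ⟨a, ha1, ha2, ha3⟩ := ih
    refine ⟨fun i => if i < D + 1 then
      (if i = 0 then 0 else g.leadingCoeff * a (i - 1)) - a D * g.coeff i else 0, ?_, ?_, ?_⟩
    · intro j
      by_cases hj : j < D + 1
      · simp only [if_pos hj]
        refine (MvPolynomial.totalDegree_sub _ _).trans (max_le ?_ ?_)
        · by_cases hj0 : j = 0
          · simp [hj0]
          · rw [if_neg hj0]
            refine (MvPolynomial.totalDegree_mul _ _).trans ?_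
            have h1 := ha1 (j - 1)
            have h2 := hb.2 (D + 1)
            rw [hlead, add_mul, one_mul]
            omega
        · refine (MvPolynomial.totalDegree_mul _ _).trans ?_
          have h1 := ha1 D
          have h2 := hb.2 j
          rw [add_mul, one_mul]
          omega
      · simp only [if_neg hj, MvPolynomial.totalDegree_zero]
        exact Nat.zero_le _
    · intro j hj
      simp only [if_neg (by omega : ¬ j < D + 1)]
    · intro O _ w y hy
      obtain ⟨φ, hφ⟩ : ∃ φ : MvPolynomial (Fin m) ℤ →+* O, ∀ q, ev1 q w = φ q :=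
        ⟨MvPolynomial.eval₂Hom (Int.castRingHom O) w, fun q => rfl⟩
      have h1 := ha3 O w y hy
      simp only [hφ] at h1 ⊢
      have h2 : φ g.leadingCoeff * y ^ (D + 1) =
          - ∑ i ∈ range (D + 1), φ (g.coeff i) * y ^ i := by
        rw [ev2_sum, hd, sum_range_succ, ← hlead] at hy
        simp only [hφ] at hy
        linear_combination hy
      have h3 : ∑ j ∈ range (D + 1), φ
          ((if j < D + 1 then (if j = 0 then 0 else g.leadingCoeff * a (j - 1)) - a D * g.coeff j
            else 0)) * y ^ j =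
          ∑ j ∈ range (D + 1), (φ
            (if j = 0 then 0 else g.leadingCoeff * a (j - 1)) * y ^ j -
            φ (a D) * (φ (g.coeff j) * y ^ j)) := by
        refine sum_congr rfl fun j hj => ?_
        rw [if_pos (mem_range.1 hj), map_sub, map_mul φ (a D)]
        ring
      rw [h3, sum_sub_distrib, ← mul_sum]
      have h4 : ∑ j ∈ range (D + 1), φ
            (if j = 0 then 0 else g.leadingCoeff * a (j - 1)) * y ^ j =
          ∑ j ∈ range D, φ g.leadingCoeff * y * (φ (a j) * y ^ j) := by
        rw [sum_range_succ']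
        rw [if_pos rfl, map_zero, zero_mul, add_zero]
        refine sum_congr rfl fun j _ => ?_
        rw [if_neg (Nat.succ_ne_zero j), Nat.add_sub_cancel, map_mul, pow_succ]
        ring
      rw [h4, ← mul_sum]
      have h5 : φ g.leadingCoeff ^ (k + 1) * y ^ (k + 1) =
          φ g.leadingCoeff * y * (φ g.leadingCoeff ^ k * y ^ k) := by ring
      rw [h5, h1, sum_range_succ, mul_add]
      have h6 : φ g.leadingCoeff * y * (φ (a D) * y ^ D) =
          φ (a D) * (φ g.leadingCoeff * y ^ (D + 1)) := by
        ring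
      rw [h6, h2]
      ring

theorem pwr : PwrStatement := by
  intro m E g hb hd k
  obtain ⟨D, hD⟩ : ∃ D, g.natDegree = D + 1 := ⟨g.natDegree - 1, by omega⟩
  obtain ⟨a, ha1, ha2, ha3⟩ := pwr_aux m E D g hb hD k
  refine ⟨a, ha1, fun O _ w y hy => ?_⟩
  rw [ha3 O w y hy]
  have hDE : D + 1 ≤ E := by
    rw [← hD]
    exact hb.1
  refine sum_subset (range_subset_range.2 hDE) fun j _ hj => ?_
  rw [mem_range, not_lt] at hj
  rw [ha2 j hj, ev1_hom, map_zero, zero_mul]

end Pool.Agent.LRG.H40
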