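import Pool.Agent.LRG.StmtsR

/-!
# Squad LRG, row VAL: finitely many values of every coordinate
-/

set_option autoImplicit false

open Finset

open Pool.Agent.LRG.R

namespace Pool.Agent.LRG.H40

theorem eval_inj0 (w : Fin 0 → ℤ) : Function.Injective (MvPolynomial.eval w) := by
  intro f g h
  have h1 : ∀ q : MvPolynomial (Fin 0) ℤ, q = MvPolynomial.C (MvPolynomial.eval w q) := by
    intro q
    induction q using MvPolynomial.induction_on with
    | C a => rw [MvPolynomial.eval_C]
    | add p q hp hq => rw [map_add, map_add, ← hp, ← hq]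
    | mul_X p i _ => exact i.elim0
  rw [h1 f, h1 g, h]

theorem val : ValStatement := by
  classical
  intro hSno N c E S hdep
  have hcard : ∀ l : Fin N, (S.image fun x => x l).card ≤ E := by
    intro l
    obtain ⟨g, hg0, hgb, hgz⟩ := hSno N 0 c E l S (hdep l)
    obtain ⟨w, hw⟩ : ∃ w : Fin 0 → ℤ, w = Fin.elim0 := ⟨_, rfl⟩
    have hP0 : g.map (MvPolynomial.eval w) ≠ 0 := by
      intro h
      exact hg0 ((Polynomial.map_eq_zero_iff (eval_inj0 w)).1 h)
    have hsub : (S.image fun x => x l) ⊆ (g.map (MvPolynomial.eval w)).roots.toFinset := by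
      intro z hz
      rw [mem_image] at hz
      obtain ⟨x, hx, rfl⟩ := hz
      rw [Multiset.mem_toFinset, Polynomial.mem_roots hP0, Polynomial.IsRoot.def, ← ev2_int]
      have h1 := hgz x hx
      have h2 : (fun i => x (c i)) = w := by
        funext i
        exact i.elim0
      rw [h2] at h1
      exact h1
    calc (S.image fun x => x l).card ≤ (g.map (MvPolynomial.eval w)).roots.toFinset.card :=
          card_le_card hsub
      _ ≤ Multiset.card (g.map (MvPolynomial.eval w)).roots := Multiset.toFinset_card_le _
      _ ≤ (g.map (MvPolynomial.eval w)).natDegree := Polynomial.card_roots' _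
      _ ≤ g.natDegree := Polynomial.natDegree_map_le
      _ ≤ E := hgb.1
  have hsub : S ⊆ Fintype.piFinset fun l : Fin N => S.image fun x => x l := by
    intro x hx
    rw [Fintype.mem_piFinset]
    intro l
    exact mem_image_of_mem _ hx
  calc S.card ≤ (Fintype.piFinset fun l : Fin N => S.image fun x => x l).card := card_le_card hsub
    _ = ∏ l : Fin N, (S.image fun x => x l).card := Fintype.card_piFinset _
    _ ≤ ∏ _l : Fin N, E := prod_le_prod' fun l _ => hcard l
    _ = E ^ N := by rw [prod_const, card_univ, Fintype.card_fin]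

end Pool.Agent.LRG.H40
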