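import Pool.Agent.LRG.StmtsE

/-!
# Squad LRG, row DSR: comparison of the distances for two parameters
-/

set_option autoImplicit false

open Polynomial NumberField
open Pool.Agent.LRG.E

namespace Pool.Agent.LRG.H40

theorem eps_le (n t : ℕ) (hn : 1 ≤ n) (ht : 4 ≤ t) : 1 / ((t : ℝ) - 1) ^ n ≤ 1 / 3 := by
  have h4 : (4 : ℝ) ≤ t := by exact_mod_cast ht
  have h1 : (1 : ℝ) ≤ (t : ℝ) - 1 := by linarith
  have h2 : (t : ℝ) - 1 ≤ ((t : ℝ) - 1) ^ n := le_self_pow₀ h1 (by omega)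
  exact one_div_le_one_div_of_le (by norm_num) (by linarith)

theorem dist_bd {t : ℕ} {z w w' : ℂ} (hz : ‖z - t * w‖ ≤ 1 / 3) :
    (t : ℝ) * ‖w - w'‖ - 1 / 3 ≤ ‖z - t * w'‖ ∧ ‖z - t * w'‖ ≤ (t : ℝ) * ‖w - w'‖ + 1 / 3 := by
  have h1 : (t : ℂ) * (w - w') = (z - t * w') - (z - t * w) := by ring
  have h2 : z - t * w' = (t : ℂ) * (w - w') + (z - t * w) := by ring
  have h3 : ‖(t : ℂ) * (w - w')‖ = (t : ℝ) * ‖w - w'‖ := by
    rw [norm_mul, Complex.norm_natCast]
  constructor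
  · have h4 := norm_sub_le (z - t * w') (z - t * w)
    rw [← h1, h3] at h4
    linarith
  · have h4 := norm_add_le ((t : ℂ) * (w - w')) (z - t * w)
    rw [← h2, h3] at h4
    linarith

theorem dsr : DsrStmt := by
  intro hspc r₁ r₂ t t' x x' hx hx' ht htt hr o k hok
  obtain ⟨s1, s2, s3⟩ := hspc r₁ r₂
  have h4 : (4 : ℝ) ≤ t := by exact_mod_cast ht
  have h5 : (t : ℝ) + 1 ≤ t' := by exact_mod_cast htt
  have hfac : ∀ o' : Ro r₁ r₂, fac o' = k →
      0 < ‖x o - t * om o'‖ ∧ ‖x o - t * om o'‖ < ‖x' o - t' * om o'‖ ∧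
      ‖x' o - t' * om o'‖ ≤ ((t' : ℝ) + 1) / ((t : ℝ) - 1) * ‖x o - t * om o'‖ := by
    intro o' ho'
    have hne : o ≠ o' := by
      rintro rfl
      exact hok ho'
    have hD := s1 o o' hne
    have e1 := (hx.near o).trans (eps_le _ t (by omega) ht)
    have e2 := (hx'.near o).trans (eps_le _ t' (by omega) (by omega))
    obtain ⟨a1, a2⟩ := dist_bd (w' := om o') e1
    obtain ⟨b1, b2⟩ := dist_bd (w' := om o') e2
    obtain ⟨D, hDd⟩ : ∃ D, D = ‖om o - om o'‖ := ⟨_, rfl⟩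
    rw [← hDd] at hD a1 a2 b1 b2
    have m1 : (t : ℝ) ≤ t * D := by nlinarith
    have m2 : ((t : ℝ) + 1) * D ≤ t' * D := by nlinarith
    refine ⟨by linarith, by nlinarith, ?_⟩
    rw [div_mul_eq_mul_div, le_div_iff₀ (by linarith)]
    have k1 : ‖x' o - t' * om o'‖ * ((t : ℝ) - 1) ≤ (t' * D + 1 / 3) * ((t : ℝ) - 1) :=
      mul_le_mul_of_nonneg_right b2 (by linarith)
    have k2 : ((t' : ℝ) + 1) * (t * D - 1 / 3) ≤ ((t' : ℝ) + 1) * ‖x o - t * om o'‖ :=
      mul_le_mul_of_nonneg_left a1 (by linarith)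
    have k3 : (t' * D + 1 / 3) * ((t : ℝ) - 1) ≤ ((t' : ℝ) + 1) * (t * D - 1 / 3) := by
      nlinarith
    exact k1.trans (k3.trans k2)
  have hR : 1 ≤ ((t' : ℝ) + 1) / ((t : ℝ) - 1) := by
    rw [le_div_iff₀ (by linarith)]
    linarith
  have hne : (Finset.univ.filter (fun o : Ro r₁ r₂ => fac o = k)).Nonempty := by
    refine ⟨rep k, ?_⟩
    rw [Finset.mem_filter]
    refine ⟨Finset.mem_univ _, ?_⟩
    rcases k with i | j <;> rfl
  have hcard : (Finset.univ.filter (fun o : Ro r₁ r₂ => fac o = k)).card ≤ 2 := by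
    classical
    have h1 : Finset.univ.filter (fun o : Ro r₁ r₂ => fac o = k) ⊆ {rep k, st (rep k)} := by
      intro o' ho'
      rw [Finset.mem_filter] at ho'
      have h2 := ho'.2
      rw [Finset.mem_insert, Finset.mem_singleton]
      rcases o' with i | ⟨j, b⟩
      · left
        rw [← h2]
        rfl
      · rw [← h2]
        cases b
        · right
          rfl
        · left
          rfl
    exact (Finset.card_le_card h1).trans Finset.card_le_two
  unfold dst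
  constructor
  · refine Finset.prod_lt_prod_of_nonempty ?_ ?_ hne
    · intro o' ho'
      exact (hfac o' (Finset.mem_filter.1 ho').2).1
    · intro o' ho'
      exact (hfac o' (Finset.mem_filter.1 ho').2).2.1
  · have hp : 0 ≤ ∏ o' ∈ Finset.univ.filter (fun o : Ro r₁ r₂ => fac o = k),
        ‖x o - t * om o'‖ := Finset.prod_nonneg fun _ _ => norm_nonneg _
    calc ∏ o' ∈ Finset.univ.filter (fun o : Ro r₁ r₂ => fac o = k), ‖x' o - t' * om o'‖
        ≤ ∏ o' ∈ Finset.univ.filter (fun o : Ro r₁ r₂ => fac o = k),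
          (((t' : ℝ) + 1) / ((t : ℝ) - 1) * ‖x o - t * om o'‖) := by
          refine Finset.prod_le_prod (fun _ _ => norm_nonneg _) ?_
          intro o' ho'
          exact (hfac o' (Finset.mem_filter.1 ho').2).2.2
      _ = (((t' : ℝ) + 1) / ((t : ℝ) - 1)) ^
            (Finset.univ.filter (fun o : Ro r₁ r₂ => fac o = k)).card *
          ∏ o' ∈ Finset.univ.filter (fun o : Ro r₁ r₂ => fac o = k), ‖x o - t * om o'‖ := by
          rw [Finset.prod_mul_distrib, Finset.prod_const]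
      _ ≤ _ := mul_le_mul_of_nonneg_right (pow_le_pow_right₀ hR hcard) hp

end Pool.Agent.LRG.H40
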