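import Pool.Agent.LRG.StmtsE

/-!
# Squad LRG, row NOI: no square root of minus one
-/

set_option autoImplicit false

open Polynomial NumberField
open Pool.Agent.LRG.E

namespace Pool.Agent.LRG.H40

theorem noi : NoiStmt := by
  classical
  intro hspc hniz r₁ r₂ t x K _ _ θ e hF hbig hr ι hι
  obtain ⟨s1, s2, s3⟩ := hspc r₁ r₂
  obtain ⟨ht, hb⟩ := hbig
  have hx := hF.rts
  have h4 : (4 : ℝ) ≤ t := by exact_mod_cast ht
  have ho : Nonempty (Ro r₁ r₂) := by
    rcases Nat.eq_zero_or_pos r₁ with h | h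
    · exact ⟨Sum.inr (⟨0, by omega⟩, true)⟩
    · exact ⟨Sum.inl ⟨0, h⟩⟩
  obtain ⟨o₀⟩ := ho
  -- the values of `ι`
  have hval : ∀ o, e o ι = Complex.I ∨ e o ι = -Complex.I := by
    intro o
    have h1 : (e o ι) ^ 2 = Complex.I ^ 2 := by
      rw [← map_pow, hι, map_neg, map_one, Complex.I_sq]
    exact sq_eq_sq_iff_eq_or_eq_neg.1 h1
  obtain ⟨κ, hκ2, hκ⟩ : ∃ κ : ℤ, κ * κ = 1 ∧ e o₀ ι = (κ : ℂ) * Complex.I := by
    rcases hval o₀ with h | h
    · exact ⟨1, by norm_num, by rw [h]; push_cast; ring⟩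
    · exact ⟨-1, by norm_num, by rw [h]; push_cast; ring⟩
  have hκ2' : (κ : ℂ) * κ = 1 := by exact_mod_cast hκ2
  have hconj : ∀ (o : Ro r₁ r₂) (a : K), e (st o) a = (starRingEnd ℂ) (e o a) := by
    intro o a
    rw [← hF.cj o]
    rfl
  have hst : st o₀ ≠ o₀ := by
    intro h
    have h1 := hconj o₀ ι
    rw [h, hκ, map_mul, Complex.conj_I] at h1
    have h2 : (starRingEnd ℂ) (κ : ℂ) = κ := by simp
    rw [h2] at h1
    have h3 : (2 : ℂ) * ((κ : ℂ) * Complex.I) = 0 := by linear_combination h1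
    have h5 : (κ : ℂ) ≠ 0 := by
      intro h0
      rw [h0] at hκ2'
      simp at hκ2'
    exact mul_ne_zero two_ne_zero (mul_ne_zero h5 Complex.I_ne_zero) h3
  -- the element `W`
  obtain ⟨W, hW⟩ : ∃ W : K, W = (((t : ℤ) * omre o₀ : ℤ) : K) +
      ((κ * ((t : ℤ) * omim o₀) : ℤ) : K) * ι := ⟨_, rfl⟩
  have hιint : IsIntegral ℤ ι := by
    refine ⟨X ^ 2 + 1, ?_, ?_⟩
    · have := monic_X_pow_add_C (R := ℤ) 1 (n := 2) two_ne_zero
      rwa [C_1] at this
    · rw [eval₂_add, eval₂_pow, eval₂_X, eval₂_one, hι]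
      ring
  have hWint : IsIntegral ℤ W := by
    rw [hW]
    have c1 : ∀ m : ℤ, IsIntegral ℤ (m : K) := by
      intro m
      have := isIntegral_algebraMap (R := ℤ) (A := K) (x := m)
      rwa [eq_intCast (algebraMap ℤ K)] at this
    exact (c1 _).add ((c1 _).mul hιint)
  have hmon : (Gp r₁ r₂ t - 1).Monic := by
    have h1 : ((Gp r₁ r₂ t - 1).map (Int.castRingHom ℂ)).Monic := by
      rw [hx.prod]
      exact monic_prod_of_monic _ _ fun o _ => monic_X_sub_C _
    exact monic_of_injective (RingHom.injective_int _) h1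
  have hθint : IsIntegral ℤ θ := ⟨_, hmon, hF.root⟩
  have hWo : e o₀ W = t * om o₀ := by
    rw [hW, map_add, map_mul, map_intCast, map_intCast, hκ]
    unfold om
    push_cast
    linear_combination ((t : ℂ) * (omim o₀ : ℂ) * Complex.I) * hκ2'
  have hWst : e (st o₀) W = t * om (st o₀) := by
    rw [hconj, hWo, map_mul, (s3 o₀).1]
    simp
  have hWall : ∀ o, e o W = e o₀ W ∨ e o W = e (st o₀) W := by
    intro o
    have h1 : e o ι = e o₀ ι ∨ e o ι = e (st o₀) ι := by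
      have h2 := hconj o₀ ι
      rcases hval o₀ with h | h
      · rw [h, Complex.conj_I] at h2
        rw [h, h2]
        exact hval o
      · rw [h, map_neg, Complex.conj_I, neg_neg] at h2
        rw [h, h2]
        exact (hval o).symm
    have h2 : ∀ o', e o ι = e o' ι → e o W = e o' W := by
      intro o' h
      rw [hW, map_add, map_mul, map_intCast, map_intCast, h, map_add, map_mul, map_intCast,
        map_intCast]
    rcases h1 with h | h
    · exact Or.inl (h2 _ h)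
    · exact Or.inr (h2 _ h)
  have hbd1 : 1 ≤ bd r₁ r₂ := (s2 o₀).1.trans (s2 o₀).2
  have hWn : ∀ o, ‖e o W‖ ≤ t * bd r₁ r₂ := by
    intro o
    rcases hWall o with h | h
    · rw [h, hWo, norm_mul, Complex.norm_natCast]
      exact mul_le_mul_of_nonneg_left (s2 _).2 (by linarith)
    · rw [h, hWst, norm_mul, Complex.norm_natCast]
      exact mul_le_mul_of_nonneg_left (s2 _).2 (by linarith)
  obtain ⟨n, hn⟩ : ∃ n : ℕ, n = r₁ + 2 * r₂ := ⟨_, rfl⟩
  have hn3 : 3 ≤ n := by omega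
  have hcard : Fintype.card (Ro r₁ r₂) = n := by
    simp only [Fintype.card_sum, Fintype.card_prod, Fintype.card_fin, Fintype.card_bool]
    omega
  rw [← hn] at hb
  obtain ⟨ε, hε⟩ : ∃ ε : ℝ, ε = 1 / ((t : ℝ) - 1) ^ (n - 1) := ⟨_, rfl⟩
  obtain ⟨Y, hY⟩ : ∃ Y : ℝ, Y = 8 * (n : ℝ) * bd r₁ r₂ * t := ⟨_, rfl⟩
  rw [← hY] at hb
  have hnear : ∀ o, ‖x o - t * om o‖ ≤ ε := by
    intro o
    rw [hε, hn]
    exact hx.near o
  have hpow : 1 ≤ ((t : ℝ) - 1) ^ (n - 1) := one_le_pow₀ (by linarith)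
  have hε0 : 0 < ε := by
    rw [hε]
    exact div_pos one_pos (by linarith)
  have hε1 : ε ≤ 1 := by
    rw [hε, div_le_one (by linarith)]
    exact hpow
  have hn3' : (3 : ℝ) ≤ n := by exact_mod_cast hn3
  have hbt : (4 : ℝ) ≤ bd r₁ r₂ * t := by nlinarith
  have hYb : 3 * (bd r₁ r₂ * t) ≤ Y := by
    rw [hY]
    nlinarith
  have hY1 : 1 ≤ Y := by linarith
  obtain ⟨a, ha⟩ : ∃ a : K, a = W - θ := ⟨_, rfl⟩
  have haint : IsIntegral ℤ a := by
    rw [ha]
    exact hWint.sub hθint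
  have hea : ∀ o, e o a = e o W - x o := by
    intro o
    rw [ha, map_sub, hF.emb]
  have hsmall : ∀ o, o = o₀ ∨ o = st o₀ → ‖e o a‖ ≤ ε := by
    intro o h
    rw [hea]
    rcases h with h | h
    · rw [h, hWo, norm_sub_rev]
      exact hnear _
    · rw [h, hWst, norm_sub_rev]
      exact hnear _
  have hlarge : ∀ o, ‖e o a‖ ≤ Y := by
    intro o
    rw [hea]
    have h1 : ‖x o‖ ≤ ε + t * bd r₁ r₂ := by
      have h2 : x o = (x o - t * om o) + t * om o := by ring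
      rw [h2]
      refine (norm_add_le _ _).trans (add_le_add (hnear o) ?_)
      rw [norm_mul, Complex.norm_natCast]
      exact mul_le_mul_of_nonneg_left (s2 _).2 (by linarith)
    refine (norm_sub_le _ _).trans ?_
    have h2 := hWn o
    nlinarith
  have hprod : ‖∏ τ : K →+* ℂ, τ a‖ < 1 := by
    rw [← Equiv.prod_comp e (fun τ => τ a), norm_prod]
    have h1 : ∏ o : Ro r₁ r₂, ‖e o a‖ = ‖e o₀ a‖ * (‖e (st o₀) a‖ *
        ∏ o ∈ (Finset.univ.erase o₀).erase (st o₀), ‖e o a‖) := by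
      rw [← Finset.mul_prod_erase Finset.univ (fun o => ‖e o a‖) (Finset.mem_univ o₀),
        ← Finset.mul_prod_erase (Finset.univ.erase o₀) (fun o => ‖e o a‖)
          (Finset.mem_erase.2 ⟨hst, Finset.mem_univ _⟩)]
    rw [h1]
    have h2 : ∏ o ∈ (Finset.univ.erase o₀).erase (st o₀), ‖e o a‖ ≤ Y ^ (n - 2) := by
      have h3 : ((Finset.univ.erase o₀).erase (st o₀) : Finset (Ro r₁ r₂)).card = n - 2 := by
        rw [Finset.card_erase_of_mem (Finset.mem_erase.2 ⟨hst, Finset.mem_univ _⟩),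
          Finset.card_erase_of_mem (Finset.mem_univ _), Finset.card_univ, hcard]
        omega
      rw [← h3, ← Finset.prod_const]
      exact Finset.prod_le_prod (fun _ _ => norm_nonneg _) fun o _ => hlarge o
    have h3 : 0 ≤ ∏ o ∈ (Finset.univ.erase o₀).erase (st o₀), ‖e o a‖ :=
      Finset.prod_nonneg fun _ _ => norm_nonneg _
    have h5 : ‖e o₀ a‖ * (‖e (st o₀) a‖ *
        ∏ o ∈ (Finset.univ.erase o₀).erase (st o₀), ‖e o a‖) ≤ ε * (ε * Y ^ (n - 2)) := by
      refine mul_le_mul (hsmall _ (Or.inl rfl)) (mul_le_mul (hsmall _ (Or.inr rfl)) h2 h3 hε0.le)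
        (mul_nonneg (norm_nonneg _) h3) hε0.le
    refine lt_of_le_of_lt h5 ?_
    have h6 : (n : ℝ) * (ε * Y ^ (n - 2)) < 1 := by
      rw [hε]
      have h7 : (0 : ℝ) < ((t : ℝ) - 1) ^ (n - 1) := by linarith
      have h8 : (n : ℝ) * (1 / ((t : ℝ) - 1) ^ (n - 1) * Y ^ (n - 2)) =
          ((n : ℝ) * Y ^ (n - 2)) / ((t : ℝ) - 1) ^ (n - 1) := by ring
      rw [h8, div_lt_one h7]
      exact hb
    have h9 : 0 ≤ ε * Y ^ (n - 2) := mul_nonneg hε0.le (pow_nonneg (by linarith) _)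
    have h10 : ε * Y ^ (n - 2) < 1 := by nlinarith
    have h11 : ε * (ε * Y ^ (n - 2)) ≤ 1 * (ε * Y ^ (n - 2)) := mul_le_mul_of_nonneg_right hε1 h9
    linarith
  have ha0 := hniz K a haint hprod
  have h1 := hea o₀
  rw [ha0, map_zero, hWo] at h1
  have h2 := hx.one o₀
  rw [Finset.prod_eq_zero (Finset.mem_univ o₀)] at h2
  · exact zero_ne_one h2
  · rw [norm_eq_zero]
    linear_combination h1

end Pool.Agent.LRG.H40
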